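import Pool.Agent.H313.GE.Kum2

/-!
# Semisimplicity of Frobenius on fibred surfaces over abelian coverings of the base

Let `k` be a field with `q` elements, `Z` the subset of projective space over `k` where the forms `G i`
vanish, assumed to be a smooth geometrically connected curve, and `𝒳 → Z` a smooth projective surface
which is fibred over `Z`, with a smooth geometrically connected generic fibre of any genus; let
`P z = det (1 - T Frob)` for the closed point `z` of `Z`, on the space of the invariants of the inertia
group of `z` in the cohomology of degree one of the generic fibre (for all but finitely many `z` this is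
the numerator of the zeta function of the fibre). Let `ℓ` be a prime, `F i` (`i < m`) forms, and `χ i`
characters of the multiplicative group of `k` of the orders `ℓ ^ (a i)`, so that `ℓ ^ (a i)` divides
`q - 1`; assume that `ℓ ^ (a i)` divides the degree of `F i`, that the divisors of the `F i` on `Z` are
sums of points with multiplicities prime to `ℓ`, at least one, are disjoint, and that the fibres of `𝒳`
over these points are smooth. Let `Z_a` be the smooth projective curve `w_i ^ (ℓ ^ (a i)) = F i`
(`i < m`) over `Z`, an abelian covering with the group `∏ μ_(ℓ ^ (a i))`, and `𝒳_a` the base change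
of `𝒳`, a smooth projective surface with a fibration over `Z_a`.

Let `R` be the sheaf on `Z` of the first cohomology of the generic fibre. For `j = (j i)`,
`0 ≤ j i < ℓ ^ (a i)`, let `I(j)` be the set of the `i` with `j i ≠ 0`, and `L_j` the tensor product over
`i ∈ I(j)` of the Kummer sheaves of the characters `χ i ^ (j i)` for `F i`. The cohomology of degree two
of `𝒳_a` is the direct sum of the `U j = H ^ 1 (Z, R ⊗ L_j)` for `I(j)` not empty, of the space
`H ^ 1 (Z, R)` and of a space of classes of divisors (the components of the fibres and one class of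
positive degree on the generic fibre), on which a power of the Frobenius is a multiple of the identity;
`U 0` is the sum of the last two spaces. Since `L_j` is ramified at points where the fibres are smooth,
the cohomology of `R ⊗ L_j` is zero outside the degree one, and `det (1 - T Frob)` on `U j` is the
inverse of `twistedProduct` for the characters `χ i ^ (j i)`, `i ∈ I(j)`, by Grothendieck.
-/

set_option autoImplicit false
set_option linter.all false
set_option maxHeartbeats 4000000

open Polynomial NumberField Module

namespace Pool.Agent.Results.MP_1fe969_ag.AbelianBaseChange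

open Pool.Agent.H313.GE.Pts

/-- The set of the `i` with `j i ≠ 0`. -/
def supp {m : ℕ} {N : Fin m → ℕ} (j : ∀ i, Fin (N i)) : Finset (Fin m) :=
  Finset.univ.filter fun i => (j i : ℕ) ≠ 0

/-- The Jordan blocks of `f` have the size `e` at most: the kernels of the powers of `f - α` of the
exponents `e` and `e + 1` are equal, for all `α`. For `e = 1` this means that `f` is diagonalisable, over
an algebraically closed field. -/
def JordanBlocksLE {E V : Type} [Field E] [AddCommGroup V] [Module E V] (f : Module.End E V)
    (e : ℕ) : Prop :=
  ∀ (α : E) (x : V), ((f - algebraMap E (Module.End E V) α) ^ (e + 1)) x = 0 →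
    ((f - algebraMap E (Module.End E V) α) ^ e) x = 0

/-- **The Jordan blocks of Frobenius on fibred surfaces over abelian coverings of the base.**

For every nonempty set `I` which is the support of a `j`, let the inverse of the reduction modulo `ℓ` of
the product of the `P z (T ^ (deg z))` over the closed points `z` of `Z` where the `F i`, `i ∈ I`, are
not zero be a polynomial `H` over the field with `ℓ` elements which divides `S ^ e` for a squarefree
polynomial `S`, and of which the degree is the dimension of `U j` (it is `2 g (2 h - 2 + d_I) + f`, for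
`Z` of genus `h`, fibres of genus `g`, `d_I` the number of the geometric points of `Z` where an `F i`,
`i ∈ I`, is zero, and `f` the degree of the conductor of `R`). If the Jordan blocks of Frobenius on
`U 0` have the size `e` at most, in particular if this holds for `H ^ 2 (𝒳)`, then it holds for
`H ^ 2 (𝒳_a)`. For `e = 1`: if `H` is squarefree for all `I` and Frobenius is semisimple on `H ^ 2 (𝒳)`
then it is semisimple on `H ^ 2 (𝒳_a)`.

For `m = 1`, if the Jacobian of the generic fibre has no constant part and `L(T)` is the polynomial
`det (1 - T Frob)` on `H ^ 1 (Z, R)`, the only condition is that the polynomial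
`L(T) ∏ P z (T ^ (deg z))` modulo `ℓ` is squarefree, where `z` runs through the zeros of `F`; it is the
same for all exponents `a` and all twists of the covering. -/
theorem result (ℓ : ℕ) (hℓ : ℓ.Prime) (k : Type) [Field k] [Finite k]
    (K : Type) [Field K] [NumberField K] (M s m : ℕ)
    (G : Fin s → MvPolynomial (Fin (M + 1)) k) (F : Fin m → MvPolynomial (Fin (M + 1)) k)
    (P : Pt G → ℤ[X]) (hP : ∀ z, (P z).coeff 0 = 1)
    (a : Fin m → ℕ) (χ : Fin m → MulChar k (𝓞 K)) (hχ : ∀ i, orderOf (χ i) = ℓ ^ a i)
    (E : Type) [Field E] [CharZero E] [IsAlgClosed E] (φ : 𝓞 K →+* E)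
    (U : (∀ i, Fin (ℓ ^ a i)) → Type) [∀ j, AddCommGroup (U j)] [∀ j, Module E (U j)]
    [∀ j, FiniteDimensional E (U j)] (Φ : ∀ j, Module.End E (U j))
    (hΦ : ∀ j, (supp j).Nonempty → ∃ D : (𝓞 K)[X], IsDet φ (Φ j) D ∧
      twistedProduct G F P (fun i => χ i ^ (j i : ℕ)) (supp j) * (D : PowerSeries (𝓞 K)) = 1)
    (e : ℕ) (h0 : ∀ j, ¬ (supp j).Nonempty → JordanBlocksLE (Φ j) e)
    (hI : ∀ j, (supp j).Nonempty → ∃ H S : (ZMod ℓ)[X], Squarefree S ∧ H ∣ S ^ e ∧
      PowerSeries.map (Int.castRingHom (ZMod ℓ)) (openProduct G F P (supp j)) *
        (H : PowerSeries (ZMod ℓ)) = 1 ∧ H.natDegree = finrank E (U j)) :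
    JordanBlocksLE (LinearMap.pi fun j => Φ j ∘ₗ LinearMap.proj j : Module.End E (∀ j, U j)) e := by
  have hF : Fact ℓ.Prime := ⟨hℓ⟩
  have hodd : ¬ Even 1 := by decide
  refine Pool.Agent.H313.GE.blocks_pi Φ _ (fun x j => rfl) e fun j => ?_
  by_cases hj : (supp j).Nonempty
  · obtain ⟨D, hD, hDs⟩ := hΦ j hj
    obtain ⟨H, S, hS, hHS, hH, hdeg⟩ := hI j hj
    refine twisted_blocks G F P hP (fun i => χ i ^ (j i : ℕ)) (supp j) a ?_ (n := 1)
      ⟨fun h => absurd h hodd, fun _ => hDs⟩ φ (Φ j) hD ⟨fun h => absurd h hodd, fun _ => hH⟩ hS hHS
      hdeg
    intro i _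
    have h1 : χ i ^ ℓ ^ a i = 1 := by rw [← hχ i, pow_orderOf_eq_one]
    rw [← pow_mul, mul_comm, pow_mul, h1, one_pow]
  · exact h0 j hj

end Pool.Agent.Results.MP_1fe969_ag.AbelianBaseChange
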