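import Pool.Agent.X320.FS.Fam

/-!
# Frobenius semisimplicity for one surface of a family implies it for almost all surfaces of the family

Let `X → S` be a smooth projective family of surfaces, where `S` is a smooth geometrically connected variety over a
finite field (or a smooth scheme of finite type over an open part of the ring of integers of a number field `K`, with
geometrically connected generic fibre), and `ℓ` invertible on `S`. The profinite group `Γ = π₁(S)` acts on
`V = H²(X_s ⊗ k̄(s), ℚ_ℓ)`, and the action of a Frobenius element at the closed point `s` of `S` is the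
action of the Frobenius of the residue field on the cohomology of the surface `X_s` (smooth and proper base change).
By Deligne the normal subgroup `Δ` (the fundamental group of `S` over the algebraic closure of the finite field, or
of `K`) acts semisimply.

**Theorem.** Suppose that for ONE closed point `s₀` the Frobenius acts semisimply on `H²` of the surface `X_{s₀}`; or,
in the second case, that `H²` of one surface `X_t` over a number field, `t` a closed point of `S ⊗ K`, is a semisimple
representation of the Galois group. Then the closed points `s` of `S` for which the Frobenius does not act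
semisimply on `H²` of `X_s` have density zero: for every `ε > 0` there is a finite quotient `G = Γ / U` and a subset
`C` of `G`, stable under conjugation, with at most `ε |G|` elements, such that the Frobenius is semisimple for all `s`
whose Frobenius class in `G` is not in `C`.

There is no condition on the monodromy, and the theorem is the same for all cohomology groups of all dimensions.

Proof. (1) `V` is a semisimple representation of `Γ`: this is proved with the projections on a stable subspace which
commute with `Δ`, and the trace form on the commutant of `Δ`. (2) Let `c(x)` be the number of different eigenvalues of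
`x ∈ Γ` on `V`. It attains its maximum on the cosets of a suitable open subgroup outside a closed set of measure
zero, and where it has a local maximum the element `x` is semisimple, because the nilpotent part of the
logarithm of a power of `x` is orthogonal to the Lie algebra of the image for the trace form.
-/

set_option autoImplicit false

namespace Pool.Agent.Results.MP_1fe969_ag.OneMemberOfAFamily

open Matrix

/-- the subspace `W` is stable under the subgroup `H` of `Γ` -/
def Stable {F Γ : Type} [Field F] [Group Γ] {n : ℕ} (ρ : Γ →* GL (Fin n) F) (H : Subgroup Γ)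
    (W : Submodule F (Fin n → F)) : Prop :=
  ∀ g ∈ H, ∀ x ∈ W, (ρ g : Matrix (Fin n) (Fin n) F) *ᵥ x ∈ W

/-- the restriction of the representation to the subgroup `H` is semisimple: every `H`-stable subspace has an
`H`-stable complement -/
def SemisimpleOn {F Γ : Type} [Field F] [Group Γ] {n : ℕ} (ρ : Γ →* GL (Fin n) F) (H : Subgroup Γ) : Prop :=
  ∀ W, Stable ρ H W → ∃ W', Stable ρ H W' ∧ IsCompl W W'

/-- the matrix `X` is semisimple: its minimal polynomial has no repeated roots -/
def SemisimpleMatrix {F : Type} [Field F] {n : ℕ} (X : Matrix (Fin n) (Fin n) F) : Prop := (minpoly F X).Separable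

/-- Let `ρ` be a continuous representation of the profinite group `Γ` over `ℚ_ℓ`, `Δ` a normal subgroup on which `ρ` is
semisimple, and `D` a subgroup such that the closure of `Δ D` has finite index. Suppose that `ρ` is semisimple on
`D`, or that `D` is generated by an element `x₀` with a semisimple matrix `ρ x₀`. Then `ρ` is semisimple, and for every
`ε > 0` there are an open normal subgroup `U` of `Γ` and a subset `C` of `Γ / U`, stable under conjugation and of
cardinality at most `ε [Γ : U]`, such that the matrix `ρ x` is semisimple for all `x` with image outside `C`. -/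
theorem result (ℓ : ℕ) [Fact ℓ.Prime] (Γ : Type) [Group Γ] [TopologicalSpace Γ] [IsTopologicalGroup Γ]
    [CompactSpace Γ] [T2Space Γ] [TotallyDisconnectedSpace Γ] (n : ℕ) (ρ : Γ →* GL (Fin n) ℚ_[ℓ]) (hρ : Continuous ρ)
    (Δ D : Subgroup Γ) (hn : Δ.Normal) (hΔ : SemisimpleOn ρ Δ)
    (hD : SemisimpleOn ρ D ∨ ∃ x₀ : Γ, D = Subgroup.zpowers x₀ ∧ SemisimpleMatrix (ρ x₀ : Matrix (Fin n) (Fin n) ℚ_[ℓ]))
    (hfi : (Δ ⊔ D).topologicalClosure.FiniteIndex) :
    SemisimpleOn ρ ⊤ ∧ ∀ ε : ℝ, 0 < ε → ∃ (U : Subgroup Γ) (_ : U.Normal) (C : Set (Γ ⧸ U)), IsOpen (U : Set Γ) ∧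
      (∀ q ∈ C, ∀ g : Γ ⧸ U, g * q * g⁻¹ ∈ C) ∧ (C.ncard : ℝ) ≤ ε * Nat.card (Γ ⧸ U) ∧
      ∀ x : Γ, (QuotientGroup.mk x : Γ ⧸ U) ∉ C → SemisimpleMatrix (ρ x : Matrix (Fin n) (Fin n) ℚ_[ℓ]) := by
  have hD' : Pool.Agent.X320.FS.SSFor (Pool.Agent.X320.DS.toEnd ρ) D := by
    rcases hD with h | ⟨x₀, rfl, h⟩
    · exact h
    · refine Pool.Agent.X320.FS.ss_zpowers ?_
      refine Module.End.isSemisimple_of_squarefree_aeval_eq_zero (p := minpoly ℚ_[ℓ] (ρ x₀ : Matrix (Fin n) (Fin n) ℚ_[ℓ]))
        h.squarefree ?_
      show Polynomial.aeval (Matrix.toLin' (ρ x₀ : Matrix (Fin n) (Fin n) ℚ_[ℓ])) _ = 0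
      rw [Pool.Agent.X320.FS.aeval_toLin2, minpoly.aeval, map_zero]
  have hss : Pool.Agent.X320.DS.Semisimple ρ := Pool.Agent.X320.FS.family_ss hρ hn hΔ hD' hfi
  refine ⟨fun W hW => ?_, fun ε hε => ?_⟩
  · obtain ⟨W', hW', hc⟩ := hss W fun g x hx => hW g (Subgroup.mem_top g) x hx
    exact ⟨W', fun g _ x hx => hW' g x hx, hc⟩
  · obtain ⟨U, hU, C, hUo, hC, hcard, h⟩ := Pool.Agent.X320.FS.almost_all (p := ℓ) ρ hρ hss hε
    refine ⟨U, hU, C, hUo, hC, hcard, fun x hx => ?_⟩
    have h3 := (h x hx).minpoly_squarefree
    rw [Matrix.minpoly_toLin'] at h3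
    exact (PerfectField.separable_iff_squarefree).2 h3

end Pool.Agent.Results.MP_1fe969_ag.OneMemberOfAFamily
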