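import Pool.Agent.X310.Ort

/-!
# `MP_1fe969_ag`: semisimplicity of Frobenius on `H²` of surfaces of small transcendental rank

`V = H²(X̄, ℚ̄_ℓ(1))` with the cup product `B` and the Frobenius `F`; the algebraic classes span a
subspace on which `B` is nondegenerate (Hodge index theorem).
-/

set_option autoImplicit false

namespace Pool.Agent.Results.MP_1fe969_ag.PoleOrderAtMostRankPlusTwo

open Module Pool.Agent.X310.Ort

theorem result (K V : Type) [Field K] [AddCommGroup V] [Module K V] [FiniteDimensional K V]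
    (h2 : (2 : K) ≠ 0) (D : FrobeniusData K V) :
    (∀ A : Submodule K V, (∀ x ∈ A, D.F x = x) →
      (∀ x ∈ A, (∀ y ∈ A, D.B x y = 0) → x = 0) →
      finrank K (Module.End.maxGenEigenspace D.F 1) ≤ finrank K A + 2 → D.SemisimpleAt 1) ∧
    (∀ A : Submodule K V, D.AlgebraicClasses A → finrank K V ≤ finrank K A + 2 →
      ∀ α : K, D.SemisimpleAt α) ∧
    (∃ m : ℕ, finrank K V = finrank K (LinearMap.ker (D.F - LinearMap.id))
      + finrank K (LinearMap.ker (D.F + LinearMap.id)) + 2 * m) :=
  ⟨fun A hf hA hd => semisimple_one D h2 A hf hA hd,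
    fun A hA hd α => semisimple_all D h2 A hA hd α, parity D h2⟩

end Pool.Agent.Results.MP_1fe969_ag.PoleOrderAtMostRankPlusTwo
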