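import Pool.Agent.X261.SS.Cub

/-!
# Frobenius on the twists of the surfaces `w ^ N = f(x) - t`

Let `k` be a finite field, `ℓ` a prime, `χ` a character of the multiplicative group of `k` of order
`N = ℓ ^ a`, `f` and `D` polynomials over `k`. Let `V` be the open subset of the plane with the coordinates
`x` and `t` where `D(t) (f(x) - t)` is not zero, and `X` a smooth projective model of the surface
`w ^ N = D(t) (f(x) - t)`. For `0 < j < N` let `U j = H_c ^ 2 (V, L_j)` for the Kummer sheaf `L_j` of
`χ ^ j` for `D(t) (f(x) - t)`, with the Frobenius `Φ j`. If `H_c ^ i (V, L_j) = 0` for `i ≠ 2` then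
`det (1 - T Φ j)` is `planeProduct`, by Grothendieck. For `f` of degree prime to `ℓ` the Leray spectral
sequence for the `t`-line shows that this holds if one of the primes of `D` is unramified in the curve
`f(x) = t` and occurs in `D` with an exponent prime to `ℓ`. Then the dimension of `U j` is the Euler
characteristic of `V`, the number in `IsFrobeniusOn`. The cohomology `H ^ 2 (X)` is the direct sum of the
span of the components of the complement of the covering of `V` in `X`, on which the Frobenius is
semisimple, and of a quotient of the cohomology with compact support of this covering, which is the direct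
sum of the `U j` and of `H_c ^ 2 (V)` (the form on the span is nondegenerate by the Hodge index theorem,
since `V` is affine).
-/

set_option autoImplicit false

open Module NumberField Polynomial
open scoped Classical

namespace Pool.Agent.Results.MP_1fe969_ag.TwistsOfPencils

open Pool.Agent.X261.SS (DegreesPrimeTo ExcessLE planeProduct)
open Pool.Agent.X261.TD (irr irr_finite)
open Pool.Agent.TH943.HJ (primes mem_primes)
open Pool.Agent.H313.GE.Pts (IsDet)

section defs

variable {k : Type} [Field k]

/-- The Jordan blocks of `f` have the size `e` at most. For `e = 1` this means that `f` is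
diagonalisable, over an algebraically closed field. -/
def JordanBlocksLE {E V : Type} [Field E] [AddCommGroup V] [Module E V] (f : Module.End E V)
    (e : ℕ) : Prop :=
  ∀ (α : E) (x : V), ((f - algebraMap E (Module.End E V) α) ^ (e + 1)) x = 0 →
    ((f - algebraMap E (Module.End E V) α) ^ e) x = 0

/-- `det (1 - T Φ)` is the product over the closed points of the plane of the factors
`1 - ψ(N(D(t) (f(x) - t))) T ^ deg`, and the dimension is the sum of the degrees of the prime factors of
`D(f(x))` minus the sum of the degrees of the prime factors of `D`. -/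
def IsFrobeniusOn {A E V : Type} [CommRing A] [Field E] [AddCommGroup V] [Module E V]
    [FiniteDimensional E V] (φ : A →+* E) (ψ : MulChar k A) (f D : k[X]) (Φ : Module.End E V) : Prop :=
  (∃ Q : A[X], planeProduct ψ f D = (Q : PowerSeries A) ∧ IsDet φ Φ Q) ∧
    finrank E V + ∑ P ∈ primes D, P.natDegree = ∑ R ∈ primes (D.comp f), R.natDegree

/-- For all characters `ψ ≠ 1` of `ℓ`-power order and all `Φ` as in `IsFrobeniusOn` for `ψ`: the
eigenvalues of `Φ` have multiplicity `e` at most, and the Jordan blocks of `Φ` have the size `e` at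
most. -/
def FrobeniusLE (ℓ e : ℕ) (f D : k[X]) : Prop :=
  ∀ (K : Type) [Field K] [NumberField K] (a : ℕ) (ψ : MulChar k (𝓞 K)), ψ ≠ 1 → ψ ^ ℓ ^ a = 1 →
    ∀ (E : Type) [Field E] [CharZero E] [IsAlgClosed E] (φ : 𝓞 K →+* E) (U : Type)
      [AddCommGroup U] [Module E U] [FiniteDimensional E U] (Φ : Module.End E U),
      IsFrobeniusOn φ ψ f D Φ →
      (∀ α, (LinearMap.charpoly Φ).rootMultiplicity α ≤ e) ∧ JordanBlocksLE Φ e

/-- `f` is monic of degree prime to `ℓ`, the prime factors `P` of `D` are of degrees prime to `ℓ` and the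
`P(f(x))` are irreducible; and either `D` has `e` prime factors at most, or the degree `n` of `f` is a
prime number and for all `v` there are at most `e` prime factors `P` of `D` such that the greatest power
of `n` which divides the degree of `P` is `n ^ v`. -/
def IsInertProduct (ℓ e : ℕ) (f D : k[X]) : Prop :=
  f.Monic ∧ 0 < f.natDegree ∧ ¬ ℓ ∣ f.natDegree ∧ D ≠ 0 ∧
    (∀ P ∈ primes D, Irreducible (P.comp f) ∧ ¬ ℓ ∣ P.natDegree) ∧
    ((primes D).card ≤ e ∨ f.natDegree.Prime ∧ ∀ v : ℕ,
      ((primes D).filter fun P => padicValNat f.natDegree P.natDegree = v).card ≤ e)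

/-- The number of the monic irreducible polynomials `P` of degree `N` such that `FrobeniusLE` does not
hold for `D = P` and `e = 1`. -/
noncomputable def badCount (ℓ : ℕ) (f : k[X]) (N : ℕ) : ℕ :=
  {P ∈ irr k N | ¬ FrobeniusLE ℓ 1 f P}.ncard

/-- The number of the monic irreducible polynomials `P` of degree `N` such that `FrobeniusLE` holds for
`D = P` and `e = 1`. -/
noncomputable def goodCount (ℓ : ℕ) (f : k[X]) (N : ℕ) : ℕ :=
  {P ∈ irr k N | FrobeniusLE ℓ 1 f P}.ncard

end defs

theorem frobenius_le {k : Type} [Field k] [Finite k] {ℓ : ℕ} (hℓ : ℓ.Prime) {f D : k[X]} {e : ℕ}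
    (hf : 0 < f.natDegree) (hD : D ≠ 0) (ht : DegreesPrimeTo ℓ f D) (hs : ExcessLE e f D) :
    FrobeniusLE ℓ e f D := by
  have hfact : Fact ℓ.Prime := ⟨hℓ⟩
  intro K _ _ a ψ hψ1 hψ E _ _ _ φ U _ _ _ Φ hΦ
  have key : ∀ α, (LinearMap.charpoly Φ).rootMultiplicity α ≤ e := by
    intro α
    obtain ⟨⟨Q, hQ, hdet⟩, hdim⟩ := hΦ
    have h1 : orderOf ψ ∣ ℓ ^ a := orderOf_dvd_of_pow_eq_one hψ
    obtain ⟨b, -, hb⟩ := (Nat.dvd_prime_pow hℓ).1 h1
    have hb0 : b ≠ 0 := by
      rintro rfl
      rw [pow_zero, orderOf_eq_one_iff] at hb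
      exact hψ1 hb
    have hq : ℓ ∣ Nat.card k - 1 :=
      (dvd_pow_self ℓ hb0).trans (Pool.Agent.TH639.CK.card_dvd hb)
    exact Pool.Agent.X261.SS.mult_le (a := a) hq hf hD ht hs hψ hQ φ Φ hdet hdim α
  exact ⟨key, Pool.Agent.H313.GE.blocks_of_count Φ e key⟩

/-- **Frobenius on the twists of the surfaces `w ^ N = f(x) - t`.**

Let `k` be a finite field and `ℓ` a prime.

1. Let `f` and `D ≠ 0` be polynomials over `k`, `f` not constant, such that the degrees of the prime
factors of `D(f(x))` are prime to `ℓ` and the excess of their number over that of the prime factors of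
`D`, for the primes of degrees divisible by `m`, is at most `e`, for all `m`. Then the eigenvalues of
Frobenius on the cohomology of the Kummer sheaves for `D(t) (f(x) - t)` of `ℓ`-power order have
multiplicity `e` at most, and its Jordan blocks have the size `e` at most.

2. This holds if `f` is monic of degree `n` prime to `ℓ`, the prime factors `P` of `D` are of degrees
prime to `ℓ`, the `P(f(x))` are irreducible, and either `D` has `e` prime factors at most, or `n` is a
prime number and for all `v` there are at most `e` prime factors `P` of `D` such that `n ^ v` divides the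
degree of `P` exactly. For `e = 1`: all the eigenvalues are simple and Frobenius is semisimple.

3. Let `k` be of characteristic different from 2 and 3 and `f` a monic cubic polynomial which is not of the
form `(x - a) ^ 3 + b`. If `N` is prime to `ℓ` and `ℓ ≥ 5` then for all the monic irreducible `P` of
degree `N` with the exception of `(q ^ N + 6 q ^ (N / 2)) / 6 N` of them at most, that is for at least
five sixths asymptotically, all the eigenvalues are simple and Frobenius is semisimple for `D = P`. For
`ℓ = 2` and odd `N` this holds for at least `(q ^ N - 6 q ^ (N / 2)) / 3 N` of them, asymptotically one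
third. Here `q` is the number of elements of `k`. -/
theorem result (ℓ : ℕ) (hℓ : ℓ.Prime) (k : Type) [Field k] [Finite k] :
    (∀ (f D : k[X]) (e : ℕ), 0 < f.natDegree → D ≠ 0 → DegreesPrimeTo ℓ f D → ExcessLE e f D →
      FrobeniusLE ℓ e f D) ∧
    (∀ (f D : k[X]) (e : ℕ), IsInertProduct ℓ e f D → FrobeniusLE ℓ e f D) ∧
    ((2 : k) ≠ 0 → (3 : k) ≠ 0 → ∀ f : k[X], f.Monic → f.natDegree = 3 →
      f.coeff 2 ^ 2 ≠ 3 * f.coeff 1 → ∀ N : ℕ, 0 < N → ¬ ℓ ∣ N →
      (ℓ ≠ 2 → ℓ ≠ 3 → 6 * (N * badCount ℓ f N) ≤ Nat.card k ^ N + 6 * Nat.card k ^ (N / 2)) ∧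
      (ℓ ≠ 3 → Nat.card k ^ N ≤ 3 * (N * goodCount ℓ f N) + 6 * Nat.card k ^ (N / 2))) := by
  have part2 : ∀ (f D : k[X]) (e : ℕ), IsInertProduct ℓ e f D → FrobeniusLE ℓ e f D := by
    rintro f D e ⟨hm, hf, hn, hD, hP, he⟩
    have hin : ∀ P ∈ primes D, Irreducible (P.comp f) := fun P h => (hP P h).1
    have ht := Pool.Agent.X261.SS.degrees_inert hℓ hf hm hD hin hn fun P h => (hP P h).2
    rcases he with he | ⟨hnp, he⟩
    · exact frobenius_le hℓ hf hD ht (Pool.Agent.X261.SS.excess_all hf hm hD hin he)
    · exact frobenius_le hℓ hf hD ht (Pool.Agent.X261.SS.excess_level hnp hm hD hin he)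
  refine ⟨fun f D e hf hD ht hs => frobenius_le hℓ hf hD ht hs, part2, ?_⟩
  intro h2 h3 f hm hd hg N hN hNℓ
  refine ⟨fun hℓ2 hℓ3 => ?_, fun hℓ3 => ?_⟩
  · refine le_trans ?_ (Pool.Agent.X261.SS.split_count h2 h3 hm hd hg hN)
    refine Nat.mul_le_mul_left _ (Nat.mul_le_mul_left _ (Set.ncard_le_ncard ?_
      ((irr_finite N).subset (Set.sep_subset _ _))))
    rintro P ⟨hP, hPF⟩
    refine ⟨hP, ?_⟩
    by_contra hcon
    apply hPF
    have h6 : ¬ ℓ ∣ 6 * P.natDegree := by
      rw [hP.2.2, hℓ.dvd_mul]
      rintro (h | h)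
      · have h7 : ℓ ∣ 2 * 3 := h
        rcases (hℓ.dvd_mul).1 h7 with h8 | h8
        · exact hℓ2 ((Nat.prime_dvd_prime_iff_eq hℓ Nat.prime_two).1 h8)
        · exact hℓ3 ((Nat.prime_dvd_prime_iff_eq hℓ Nat.prime_three).1 h8)
      · exact hNℓ h
    exact frobenius_le hℓ (by omega) hP.2.1.ne_zero
      (Pool.Agent.X261.SS.degrees_cubic hℓ hd hP.1 hP.2.1 h6)
      (Pool.Agent.X261.SS.excess_cubic hd hP.1 hP.2.1 (not_lt.1 hcon))
  · refine (Pool.Agent.X261.TS.inert_bounds h2 h3 hm hd hg hN).1.trans ?_
    refine Nat.add_le_add_right (Nat.mul_le_mul_left _ (Nat.mul_le_mul_left _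
      (Set.ncard_le_ncard ?_ ((irr_finite N).subset (Set.sep_subset _ _))))) _
    rintro P ⟨hP, hPf⟩
    refine ⟨hP, part2 f P 1 ⟨hm, by omega, ?_, hP.2.1.ne_zero, ?_, Or.inl ?_⟩⟩
    · rw [hd]
      intro h
      exact hℓ3 ((Nat.prime_dvd_prime_iff_eq hℓ Nat.prime_three).1 h)
    · intro Q hQ
      rw [Pool.Agent.X261.SS.primes_self hP.1 hP.2.1, Finset.mem_singleton] at hQ
      rw [hQ]
      exact ⟨hPf, by rw [hP.2.2]; exact hNℓ⟩
    · rw [Pool.Agent.X261.SS.primes_self hP.1 hP.2.1, Finset.card_singleton]

end Pool.Agent.Results.MP_1fe969_ag.TwistsOfPencils
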